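import Pool.Agent.TH451.MB.Stmt

/-!
# Greedy embedding of a forest with preplaced vertices, from the tree lemma (job MB-EMBED)
-/

set_option autoImplicit false

namespace Pool.Agent.TH493.MB
open Pool.Agent.TH451.MB Finset

/-- greedy choice of disjoint sets of prescribed sizes -/
lemma choose_disjoint {V τ : Type} [DecidableEq V] [DecidableEq τ] (P : Finset τ)
    (N : τ → Finset V) (r : τ → ℕ) (h : ∀ c ∈ P, ∑ c' ∈ P, r c' ≤ (N c).card) :
    ∃ R : τ → Finset V, (∀ c ∈ P, R c ⊆ N c) ∧ (∀ c ∈ P, (R c).card = r c) ∧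
      (∀ c ∈ P, ∀ c' ∈ P, c ≠ c' → Disjoint (R c) (R c')) := by
  suffices H : ∀ Q : Finset τ, Q ⊆ P → ∃ R : τ → Finset V, (∀ c ∈ Q, R c ⊆ N c) ∧
      (∀ c ∈ Q, (R c).card = r c) ∧
      (∀ c ∈ Q, ∀ c' ∈ Q, c ≠ c' → Disjoint (R c) (R c')) from H P (Finset.Subset.refl P)
  intro Q
  induction Q using Finset.induction_on with
  | empty => intro _; exact ⟨fun _ => ∅, by simp, by simp, by simp⟩
  | insert c Q hc ih =>
    intro hQ
    obtain ⟨R, h1, h2, h3⟩ := ih (fun x hx => hQ (Finset.mem_insert_of_mem hx))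
    have hcP : c ∈ P := hQ (Finset.mem_insert_self c Q)
    have hcard : r c ≤ (N c \ Q.biUnion R).card := by
      have h4 : (Q.biUnion R).card ≤ ∑ c' ∈ Q, r c' := by
        refine Finset.card_biUnion_le.trans ?_
        exact Finset.sum_le_sum fun c' hc' => (h2 c' hc').le
      have h5 : r c + ∑ c' ∈ Q, r c' ≤ ∑ c' ∈ P, r c' := by
        rw [← Finset.sum_insert hc]
        exact Finset.sum_le_sum_of_subset hQ
      have h6 := h c hcP
      have h7 := Finset.le_card_sdiff (Q.biUnion R) (N c)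
      omega
    obtain ⟨Rc, hRc1, hRc2⟩ := Finset.exists_subset_card_eq hcard
    have hne : ∀ c' ∈ Q, c' ≠ c := fun c' hc' h => hc (h ▸ hc')
    have hdis : ∀ c' ∈ Q, Disjoint Rc (R c') := by
      intro c' hc'
      rw [Finset.disjoint_left]
      intro z hz hz'
      have := hRc1 hz
      rw [Finset.mem_sdiff] at this
      exact this.2 (Finset.mem_biUnion.2 ⟨c', hc', hz'⟩)
    refine ⟨Function.update R c Rc, ?_, ?_, ?_⟩
    · intro c' hc'
      rcases Finset.mem_insert.1 hc' with rfl | h'
      · rw [Function.update_self]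
        exact hRc1.trans Finset.sdiff_subset
      · rw [Function.update_of_ne (hne c' h')]
        exact h1 c' h'
    · intro c' hc'
      rcases Finset.mem_insert.1 hc' with rfl | h'
      · rw [Function.update_self]
        exact hRc2
      · rw [Function.update_of_ne (hne c' h')]
        exact h2 c' h'
    · intro a ha b hb hab
      rcases Finset.mem_insert.1 ha with rfl | ha'
      · rcases Finset.mem_insert.1 hb with rfl | hb'
        · exact absurd rfl hab
        · rw [Function.update_self, Function.update_of_ne (hne b hb')]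
          exact hdis b hb'
      · rcases Finset.mem_insert.1 hb with rfl | hb'
        · rw [Function.update_self, Function.update_of_ne (hne a ha')]
          exact (hdis a ha').symm
        · rw [Function.update_of_ne (hne b hb'), Function.update_of_ne (hne a ha')]
          exact h3 a ha' b hb' hab

/-- a good element in a large set -/
lemma exists_good {V τ : Type} [Fintype V] [DecidableEq V] [DecidableEq τ] (G : SimpleGraph V)
    (A : Finset V) (K s : ℕ) (hs : 1 ≤ s)
    (hexp : ∀ X Y : Finset V, X ⊆ A → Y ⊆ A → s ≤ X.card → s ≤ Y.card →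
      ∃ y ∈ Y, X.card ≤ K * (nb G y X).card)
    (P : Finset τ) (R : τ → Finset V) (hR : ∀ c ∈ P, R c ⊆ A ∧ s ≤ (R c).card)
    (A1 : Finset V) (hA1 : A1 ⊆ A) (hA1s : s ≤ A1.card)
    (Z : Finset V) (hZ : Z ⊆ A) (hZc : (P.card + 1) * s ≤ Z.card) :
    ∃ x ∈ Z, A1.card ≤ K * (nb G x A1).card ∧
      ∀ c ∈ P, (R c).card ≤ K * (nb G x (R c)).card := by
  classical
  by_contra hcon
  push Not at hcon
  let bad : Finset V → Finset V := fun X => Z.filter (fun z => K * (nb G z X).card < X.card)
  have hbad : ∀ X ⊆ A, s ≤ X.card → (bad X).card ≤ s - 1 := by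
    intro X hX hXs
    by_contra hlt
    push Not at hlt
    obtain ⟨y, hy, hy2⟩ := hexp X (bad X) hX ((Finset.filter_subset _ _).trans hZ) hXs (by omega)
    have := (Finset.mem_filter.1 hy).2
    omega
  have hsub : Z ⊆ bad A1 ∪ P.biUnion (fun c => bad (R c)) := by
    intro z hz
    rw [Finset.mem_union]
    by_cases h1 : A1.card ≤ K * (nb G z A1).card
    · right
      obtain ⟨c, hc, hc2⟩ := hcon z hz h1
      exact Finset.mem_biUnion.2 ⟨c, hc, Finset.mem_filter.2 ⟨hz, hc2⟩⟩
    · left
      push Not at h1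
      exact Finset.mem_filter.2 ⟨hz, h1⟩
  have h1 := Finset.card_le_card hsub
  have h2 := Finset.card_union_le (bad A1) (P.biUnion (fun c => bad (R c)))
  have h3 : (P.biUnion (fun c => bad (R c))).card ≤ P.card * (s - 1) :=
    Finset.card_biUnion_le_card_mul _ _ _ fun c hc => hbad (R c) (hR c hc).1 (hR c hc).2
  have h4 := hbad A1 hA1 hA1s
  have h5 : P.card * (s - 1) ≤ P.card * s := Nat.mul_le_mul_left _ (by omega)
  have h6 : (P.card + 1) * s = P.card * s + s := by ring
  omega

/-- the component of a vertex in an induced subgraph -/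
lemma exists_comp {τ : Type} [Fintype τ] [DecidableEq τ] (T : SimpleGraph τ) (D : Finset τ)
    (r : τ) (hr : r ∈ D) :
    ∃ C : Finset τ, C ⊆ D ∧ r ∈ C ∧ (T.induce (C : Set τ)).Connected ∧
      ∀ a ∈ C, ∀ b ∈ D, b ∉ C → ¬ T.Adj a b := by
  classical
  let S : Finset (Finset τ) := D.powerset.filter (fun C => r ∈ C ∧ (T.induce (C : Set τ)).Connected)
  have hS : S.Nonempty := by
    refine ⟨{r}, Finset.mem_filter.2 ⟨Finset.mem_powerset.2 (by simpa using hr), by simp, ?_⟩⟩
    rw [Finset.coe_singleton, SimpleGraph.induce_singleton_eq_top]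
    exact SimpleGraph.connected_top
  obtain ⟨C, hC, hmax⟩ := Finset.exists_max_image S Finset.card hS
  obtain ⟨hCD, hrC, hconn⟩ := Finset.mem_filter.1 hC
  rw [Finset.mem_powerset] at hCD
  refine ⟨C, hCD, hrC, hconn, ?_⟩
  intro a ha b hbD hbC hab
  have hmem : insert b C ∈ S := by
    refine Finset.mem_filter.2 ⟨Finset.mem_powerset.2 ?_, Finset.mem_insert_of_mem hrC, ?_⟩
    · intro z hz
      rcases Finset.mem_insert.1 hz with rfl | hz
      · exact hbD
      · exact hCD hz
    · have h1 := SimpleGraph.induce_union_connected (G := T) (s := (C : Set τ)) (t := {a, b})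
        hconn.preconnected (SimpleGraph.induce_pair_connected_of_adj hab).preconnected
        ⟨a, by simpa using ha, by simp⟩
      have h2 : (C : Set τ) ∪ {a, b} = ((insert b C : Finset τ) : Set τ) := by
        ext z
        simp only [Set.mem_union, Finset.mem_coe, Set.mem_insert_iff, Set.mem_singleton_iff,
          Finset.mem_insert]
        constructor
        · rintro (h | rfl | h)
          · exact Or.inr h
          · exact Or.inr ha
          · exact Or.inl h
        · rintro (h | h)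
          · exact Or.inr (Or.inr h)
          · exact Or.inl h
      rw [h2] at h1
      exact h1
  have := hmax _ hmem
  rw [Finset.card_insert_of_notMem hbC] at this
  omega

lemma nb_mono_right {V : Type} (G : SimpleGraph V) (v : V) {R S : Finset V} (h : R ⊆ S) :
    nb G v R ⊆ nb G v S := by
  intro z hz
  rw [mem_nb] at hz ⊢
  exact ⟨h hz.1, hz.2⟩

lemma nb_subset {V : Type} (G : SimpleGraph V) (v : V) (R : Finset V) : nb G v R ⊆ R := by
  intro z hz
  rw [mem_nb] at hz
  exact hz.1

/-- the induction over the components -/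
lemma embed_comps (h : StEmbedTree) (V τ : Type) [Fintype V] [DecidableEq V] [Fintype τ]
    [DecidableEq τ] (G : SimpleGraph V) (T : SimpleGraph τ) (hT : T.IsAcyclic)
    (P : Finset τ) (κ : τ → Option τ) (hκ : ∀ t c, κ t = some c → c ∈ P)
    (R : τ → Finset V) (A : Finset V) (hRA : ∀ c ∈ P, Disjoint (R c) A)
    (hRR : ∀ c ∈ P, ∀ c' ∈ P, c ≠ c' → Disjoint (R c) (R c'))
    (K s q Δ b : ℕ) (hK : 1 ≤ K) (hs : 1 ≤ s) (hq : q = (P.card + 1) * s)
    (hexp : ∀ X Y : Finset V, X ⊆ A ∪ P.biUnion R → Y ⊆ A ∪ P.biUnion R →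
      s ≤ X.card → s ≤ Y.card → ∃ y ∈ Y, X.card ≤ K * (nb G y X).card)
    (kc : τ → ℕ) (hR : ∀ c ∈ P, K * (kc c + q) + s ≤ (R c).card)
    (F' : Finset τ) (hb : F'.card ≤ 2 ^ b) (hΔ : ∀ t ∈ F', (nb T t F').card ≤ Δ) :
    ∀ m : ℕ, ∀ D : Finset τ, D.card = m → D ⊆ F' → ∀ A1 U : Finset V, A1 ⊆ A →
      D.card + K * (Δ + q) + q * (b + 1) + s ≤ A1.card →
      (∀ c ∈ P, (U ∩ R c).card + (D.filter (fun t => κ t = some c)).card ≤ kc c) →
      ∃ φ : τ → V, Set.InjOn φ (D : Set τ) ∧
        (∀ t ∈ D, (κ t = none → φ t ∈ A1) ∧ (∀ c, κ t = some c → φ t ∈ R c \ U)) ∧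
        (∀ a ∈ D, ∀ a' ∈ D, T.Adj a a' → G.Adj (φ a) (φ a')) := by
  intro m
  induction m using Nat.strong_induction_on with
  | _ m ih =>
  intro D hDm hDF A1 U hA1 hA1c hU
  have hA1s : s ≤ A1.card := by omega
  obtain ⟨v0, hv0⟩ : A1.Nonempty := Finset.card_pos.1 (by omega)
  rcases D.eq_empty_or_nonempty with rfl | ⟨r, hr⟩
  · exact ⟨fun _ => v0, by simp, by simp, by simp⟩
  obtain ⟨C, hCD, hrC, hconn, hsep⟩ := exists_comp T D r hr
  have hqs : s ≤ q := by
    rw [hq]
    nlinarith [Nat.zero_le (P.card * s)]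
  have hRsub : ∀ c ∈ P, R c ⊆ A ∪ P.biUnion R := fun c hc z hz =>
    Finset.mem_union_right _ (Finset.mem_biUnion.2 ⟨c, hc, hz⟩)
  have hA1sub : A1 ⊆ A ∪ P.biUnion R := hA1.trans Finset.subset_union_left
  -- the set in which the root is placed
  obtain ⟨Z, hZsub, hZc, hZ1, hZ2⟩ : ∃ Z : Finset V, Z ⊆ A ∪ P.biUnion R ∧
      (P.card + 1) * s ≤ Z.card ∧ (κ r = none → Z ⊆ A1) ∧
      (∀ c, κ r = some c → Z ⊆ R c \ U) := by
    rcases hκr : κ r with _ | c
    · exact ⟨A1, hA1sub, by rw [← hq]; nlinarith [Nat.zero_le (q * b)], fun _ => Finset.Subset.refl _,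
        fun c hc => by simp at hc⟩
    · have hcP := hκ r c hκr
      refine ⟨R c \ U, Finset.sdiff_subset.trans (hRsub c hcP), ?_, fun h => by simp at h, ?_⟩
      · rw [← hq]
        have h1 := hU c hcP
        have h2 := hR c hcP
        have h3 : (R c \ U).card + (U ∩ R c).card = (R c).card := by
          rw [Finset.inter_comm]
          exact Finset.card_sdiff_add_card_inter _ _
        have h4 : kc c + q ≤ K * (kc c + q) := Nat.le_mul_of_pos_left _ (by omega)
        omega
      · intro c' hc'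
        rw [Option.some.injEq] at hc'
        rw [hc']
  obtain ⟨x, hxZ, hxA1, hxR⟩ := exists_good G (A ∪ P.biUnion R) K s hs hexp P R
    (fun c hc => ⟨hRsub c hc, by have := hR c hc; omega⟩) A1 hA1sub hA1s Z hZsub hZc
  -- the neighbours of the root
  set kr := ((nb T r C).filter (fun t => κ t = none)).card with hkr
  have hkrΔ : kr ≤ Δ := by
    refine le_trans (Finset.card_le_card ?_) (hΔ r (hDF hr))
    exact (Finset.filter_subset _ _).trans (nb_mono_right T r (hCD.trans hDF))
  have hnbx : Δ + q ≤ (nb G x A1).card := by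
    by_contra hlt
    push Not at hlt
    have h1 : (nb G x A1).card + 1 ≤ Δ + q := hlt
    have h2 : K * ((nb G x A1).card + 1) ≤ K * (Δ + q) := Nat.mul_le_mul_left _ h1
    have h3 : K * ((nb G x A1).card + 1) = K * (nb G x A1).card + K := by ring
    have h4 : 1 ≤ D.card := Finset.card_pos.2 ⟨r, hr⟩
    omega
  obtain ⟨Rx, hRx1, hRx2⟩ := Finset.exists_subset_card_eq (show kr + q ≤ (nb G x A1).card by omega)
  have hRxA1 : Rx ⊆ A1 := hRx1.trans (nb_subset G x A1)
  have hRxn : ∀ z ∈ Rx, G.Adj x z := fun z hz => (mem_nb.1 (hRx1 hz)).2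
  have hxRx : x ∉ Rx := fun hx => G.irrefl (hRxn x hx)
  have hA1x : (A1 \ insert x Rx).card + (1 + (kr + q)) ≥ A1.card := by
    have h1 := Finset.le_card_sdiff (insert x Rx) A1
    have h2 := Finset.card_insert_le x Rx
    omega
  -- disjointness of the reserved sets from A
  have hRdA : ∀ c ∈ P, ∀ z, z ∈ R c → z ∉ A := fun c hc z hz hzA =>
    Finset.disjoint_left.1 (hRA c hc) hz hzA
  have hRdR : ∀ c ∈ P, ∀ c' ∈ P, ∀ z, z ∈ R c → z ∈ R c' → c = c' := by
    intro c hc c' hc' z hz hz'
    by_contra hne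
    exact Finset.disjoint_left.1 (hRR c hc c' hc' hne) hz hz'
  have hxκ : ∀ c ∈ P, x ∈ R c → κ r = some c := by
    intro c hc hxc
    rcases hκr : κ r with _ | c'
    · exact absurd (hA1 (hZ1 hκr hxZ)) (hRdA c hc x hxc)
    · have := (Finset.mem_sdiff.1 (hZ2 c' hκr hxZ)).1
      rw [hRdR c hc c' (hκ r c' hκr) x hxc this]
  obtain ⟨φ₁, hφinj, hφr, hφt, hφadj⟩ := h V τ G T hT P κ hκ R A hRA hRR K s q Δ hK hs hq hexp kc hR
    C hconn r hrC b ((Finset.card_le_card (hCD.trans hDF)).trans hb)
    (fun t ht => (Finset.card_le_card (nb_mono_right T t (hCD.trans hDF))).trans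
      (hΔ t (hDF (hCD ht))))
    x Rx (A1 \ insert x Rx) (insert x U) (Finset.sdiff_subset.trans hA1) (hRxA1.trans hA1)
    (by
      rw [Finset.disjoint_left]
      intro z hz hz'
      exact (Finset.mem_sdiff.1 hz').2 (Finset.mem_insert_of_mem hz))
    (fun hx => (Finset.mem_sdiff.1 hx).2 (Finset.mem_insert_self x Rx)) hxRx
    (fun c _ _ => Finset.mem_insert_self x U) hRxn (by rw [hRx2])
    hxR
    (by
      intro c hc
      have h1 := hU c hc
      have h2 : (C.filter (fun t => κ t = some c)).card ≤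
          (D.filter (fun t => κ t = some c)).card :=
        Finset.card_le_card (Finset.filter_subset_filter _ hCD)
      by_cases hxc : x ∈ R c
      · have h3 := hxκ c hc hxc
        have h4 : (insert x U ∩ R c).card ≤ (U ∩ R c).card + 1 := by
          rw [Finset.insert_inter_of_mem hxc]
          exact Finset.card_insert_le _ _
        have h5 : ((C.erase r).filter (fun t => κ t = some c)).card + 1 =
            (C.filter (fun t => κ t = some c)).card := by
          rw [Finset.filter_erase]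
          exact Finset.card_erase_add_one (Finset.mem_filter.2 ⟨hrC, h3⟩)
        omega
      · have h4 : (insert x U ∩ R c).card = (U ∩ R c).card := by
          rw [Finset.insert_inter_of_notMem hxc]
        have h5 : ((C.erase r).filter (fun t => κ t = some c)).card ≤
            (C.filter (fun t => κ t = some c)).card :=
          Finset.card_le_card (Finset.filter_subset_filter _ (Finset.erase_subset _ _))
        omega)
    (by
      have h1 : C.card ≤ D.card := Finset.card_le_card hCD
      have h2 : q * (b + 1) = q * b + q := by ring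
      rw [← hkr]
      omega)
  -- values of the first map
  have hφ1A : ∀ t ∈ C, κ t = none → φ₁ t ∈ A1 := by
    intro t ht hκt
    by_cases htr : t = r
    · subst htr
      rw [hφr]
      exact hZ1 hκt hxZ
    · have h1 := (hφt t (Finset.mem_erase.2 ⟨htr, ht⟩)).1 hκt
      rcases Finset.mem_union.1 h1 with h2 | h2
      · exact (Finset.mem_sdiff.1 h2).1
      · exact hRxA1 h2
  have hφ1R : ∀ t ∈ C, ∀ c, κ t = some c → φ₁ t ∈ R c \ U := by
    intro t ht c hκt
    by_cases htr : t = r
    · subst htr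
      rw [hφr]
      exact hZ2 c hκt hxZ
    · have h1 := (hφt t (Finset.mem_erase.2 ⟨htr, ht⟩)).2 c hκt
      rw [Finset.mem_sdiff] at h1 ⊢
      exact ⟨h1.1, fun h2 => h1.2 (Finset.mem_insert_of_mem h2)⟩
  have hφ1κ : ∀ t ∈ C, ∀ c ∈ P, φ₁ t ∈ R c → κ t = some c := by
    intro t ht c hc htc
    rcases hκt : κ t with _ | c'
    · exact absurd (hA1 (hφ1A t ht hκt)) (hRdA c hc _ htc)
    · rw [hRdR c hc c' (hκ t c' hκt) _ htc (Finset.mem_sdiff.1 (hφ1R t ht c' hκt)).1]
  -- the rest
  have hDC : (D \ C).card + C.card = D.card := Finset.card_sdiff_add_card_eq_card hCD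
  have hCpos : 1 ≤ C.card := Finset.card_pos.2 ⟨r, hrC⟩
  obtain ⟨φ₂, hψinj, hψt, hψadj⟩ := ih (D \ C).card (by omega) (D \ C) rfl
    (Finset.sdiff_subset.trans hDF) (A1 \ C.image φ₁) (U ∪ C.image φ₁)
    (Finset.sdiff_subset.trans hA1)
    (by
      have h1 := Finset.le_card_sdiff (C.image φ₁) A1
      have h2 : (C.image φ₁).card ≤ C.card := Finset.card_image_le
      omega)
    (by
      intro c hc
      have h1 := hU c hc
      have h2 : ((U ∪ C.image φ₁) ∩ R c).card ≤ (U ∩ R c).card +
          (C.filter (fun t => κ t = some c)).card := by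
        have h3 : (U ∪ C.image φ₁) ∩ R c ⊆ (U ∩ R c) ∪
            (C.filter (fun t => κ t = some c)).image φ₁ := by
          intro z hz
          obtain ⟨hz1, hz2⟩ := Finset.mem_inter.1 hz
          rcases Finset.mem_union.1 hz1 with hz3 | hz3
          · exact Finset.mem_union_left _ (Finset.mem_inter.2 ⟨hz3, hz2⟩)
          · obtain ⟨t, ht, rfl⟩ := Finset.mem_image.1 hz3
            exact Finset.mem_union_right _ (Finset.mem_image_of_mem _
              (Finset.mem_filter.2 ⟨ht, hφ1κ t ht c hc hz2⟩))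
        exact (Finset.card_le_card h3).trans ((Finset.card_union_le _ _).trans
          (Nat.add_le_add_left Finset.card_image_le _))
      have h4 : (C.filter (fun t => κ t = some c)).card +
          ((D \ C).filter (fun t => κ t = some c)).card =
          (D.filter (fun t => κ t = some c)).card := by
        rw [← Finset.card_union_of_disjoint, ← Finset.filter_union,
          Finset.union_sdiff_of_subset hCD]
        exact Finset.disjoint_filter_filter Finset.disjoint_sdiff
      omega)
  have hψ1 : ∀ t ∈ D \ C, φ₂ t ∉ C.image φ₁ := by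
    intro t ht hmem
    rcases hκt : κ t with _ | c
    · exact (Finset.mem_sdiff.1 ((hψt t ht).1 hκt)).2 hmem
    · exact (Finset.mem_sdiff.1 ((hψt t ht).2 c hκt)).2 (Finset.mem_union_right _ hmem)
  refine ⟨fun t => if t ∈ C then φ₁ t else φ₂ t, ?_, ?_, ?_⟩
  · intro t ht t' ht' heq
    simp only at heq
    have ht : t ∈ D := by simpa using ht
    have ht' : t' ∈ D := by simpa using ht'
    by_cases h1 : t ∈ C <;> by_cases h2 : t' ∈ C
    · rw [if_pos h1, if_pos h2] at heq
      exact hφinj (by simpa using h1) (by simpa using h2) heq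
    · rw [if_pos h1, if_neg h2] at heq
      exact absurd (heq ▸ Finset.mem_image_of_mem φ₁ h1) (hψ1 t' (Finset.mem_sdiff.2 ⟨ht', h2⟩))
    · rw [if_neg h1, if_pos h2] at heq
      exact absurd (heq.symm ▸ Finset.mem_image_of_mem φ₁ h2)
        (hψ1 t (Finset.mem_sdiff.2 ⟨ht, h1⟩))
    · rw [if_neg h1, if_neg h2] at heq
      exact hψinj (by simpa using ⟨ht, h1⟩) (by simpa using ⟨ht', h2⟩) heq
  · intro t ht
    by_cases h1 : t ∈ C
    · simp only [if_pos h1]
      exact ⟨hφ1A t h1, hφ1R t h1⟩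
    · simp only [if_neg h1]
      have htD := Finset.mem_sdiff.2 ⟨ht, h1⟩
      refine ⟨fun hκt => (Finset.mem_sdiff.1 ((hψt t htD).1 hκt)).1, fun c hκt => ?_⟩
      have := (hψt t htD).2 c hκt
      rw [Finset.mem_sdiff] at this ⊢
      exact ⟨this.1, fun h2 => this.2 (Finset.mem_union_left _ h2)⟩
  · intro a ha a' ha' hadj
    by_cases h1 : a ∈ C <;> by_cases h2 : a' ∈ C
    · simp only [if_pos h1, if_pos h2]
      exact hφadj a h1 a' h2 hadj
    · exact absurd hadj (hsep a h1 a' ha' h2)
    · exact absurd hadj.symm (hsep a' h2 a ha h1)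
    · simp only [if_neg h1, if_neg h2]
      exact hψadj a (Finset.mem_sdiff.2 ⟨ha, h1⟩) a' (Finset.mem_sdiff.2 ⟨ha', h2⟩) hadj

theorem embed_forest (h : StEmbedTree) : StEmbed := by
  intro V τ _ _ _ _ G T hT F P hPF φ₀ hinj hadj hclosed A hA K s Δ b hK hs hb hexp hΔ hdeg hcard
  classical
  set F' := F \ P with hF'
  set q := (P.card + 1) * s with hq
  set kc : τ → ℕ := fun c => (nb T c F').card with hkc
  obtain ⟨R, hR1, hR2, hR3⟩ := choose_disjoint P (fun c => nb G (φ₀ c) A)
    (fun c => resv K s P.card (kc c)) hdeg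
  have hRA : ∀ c ∈ P, R c ⊆ A := fun c hc => (hR1 c hc).trans (nb_subset _ _ _)
  let κ : τ → Option τ := fun t => if h : ∃ c, c ∈ P ∧ T.Adj t c then some h.choose else none
  have hκ1 : ∀ t c, κ t = some c → c ∈ P ∧ T.Adj t c := by
    intro t c htc
    simp only [κ] at htc
    split_ifs at htc with h'
    rw [Option.some.injEq] at htc
    rw [← htc]
    exact h'.choose_spec
  have hκ2 : ∀ t ∈ F', ∀ c ∈ P, T.Adj t c → κ t = some c := by
    intro t ht c hc htc
    have h' : ∃ c, c ∈ P ∧ T.Adj t c := ⟨c, hc, htc⟩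
    have h1 : κ t = some h'.choose := by
      simp only [κ]
      rw [dif_pos h']
    rw [h1, hclosed t ht _ h'.choose_spec.1 c hc h'.choose_spec.2 htc]
  have hunion : (A \ P.biUnion R) ∪ P.biUnion R = A := by
    apply Finset.sdiff_union_of_subset
    intro z hz
    obtain ⟨c, hc, hz'⟩ := Finset.mem_biUnion.1 hz
    exact hRA c hc hz'
  obtain ⟨φ, h1, h2, h3⟩ := embed_comps h V τ G T hT P κ (fun t c htc => (hκ1 t c htc).1) R
    (A \ P.biUnion R)
    (by
      intro c hc
      rw [Finset.disjoint_left]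
      intro z hz hz'
      exact (Finset.mem_sdiff.1 hz').2 (Finset.mem_biUnion.2 ⟨c, hc, hz⟩))
    hR3 K s q Δ b hK hs hq (by rw [hunion]; exact hexp) kc
    (by
      intro c hc
      rw [hR2 c hc]
      exact le_rfl)
    F' hb hΔ F'.card F' rfl (Finset.Subset.refl _) (A \ P.biUnion R) ∅ (Finset.Subset.refl _)
    (by
      have h4 : (P.biUnion R).card ≤ ∑ c ∈ P, resv K s P.card (nb T c F').card := by
        refine Finset.card_biUnion_le.trans ?_
        exact Finset.sum_le_sum fun c' hc' => (hR2 c' hc').le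
      have h5 := Finset.le_card_sdiff (P.biUnion R) A
      omega)
    (by
      intro c hc
      rw [Finset.empty_inter, Finset.card_empty, zero_add]
      apply Finset.card_le_card
      intro t ht
      obtain ⟨ht1, ht2⟩ := Finset.mem_filter.1 ht
      exact mem_nb.2 ⟨ht1, (hκ1 t c ht2).2.symm⟩)
  have hφA : ∀ t ∈ F', φ t ∈ A := by
    intro t ht
    rcases hκt : κ t with _ | c
    · exact (Finset.mem_sdiff.1 ((h2 t ht).1 hκt)).1
    · exact hRA c (hκ1 t c hκt).1 (Finset.mem_sdiff.1 ((h2 t ht).2 c hκt)).1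
  have hPF' : ∀ a ∈ P, ∀ b ∈ F', T.Adj a b → G.Adj (φ₀ a) (φ b) := by
    intro a ha b hb hab
    have h4 := (Finset.mem_sdiff.1 ((h2 b hb).2 a (hκ2 b hb a ha hab.symm))).1
    exact (mem_nb.1 (hR1 a ha h4)).2
  refine ⟨fun t => if t ∈ P then φ₀ t else φ t, ?_, ?_, ?_, ?_⟩
  · intro t ht t' ht' heq
    simp only at heq
    have ht : t ∈ F := by simpa using ht
    have ht' : t' ∈ F := by simpa using ht'
    by_cases h5 : t ∈ P <;> by_cases h6 : t' ∈ P
    · rw [if_pos h5, if_pos h6] at heq
      exact hinj (by simpa using h5) (by simpa using h6) heq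
    · rw [if_pos h5, if_neg h6] at heq
      exact absurd (heq ▸ hφA t' (Finset.mem_sdiff.2 ⟨ht', h6⟩)) (hA t h5)
    · rw [if_neg h5, if_pos h6] at heq
      exact absurd (heq ▸ hφA t (Finset.mem_sdiff.2 ⟨ht, h5⟩)) (hA t' h6)
    · rw [if_neg h5, if_neg h6] at heq
      exact h1 (by simpa [hF'] using ⟨ht, h5⟩) (by simpa [hF'] using ⟨ht', h6⟩) heq
  · intro a ha
    exact if_pos ha
  · intro t ht
    simp only [if_neg (Finset.mem_sdiff.1 ht).2]
    exact hφA t ht
  · intro a ha a' ha' hab
    by_cases h5 : a ∈ P <;> by_cases h6 : a' ∈ P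
    · simp only [if_pos h5, if_pos h6]
      exact hadj a h5 a' h6 hab
    · simp only [if_pos h5, if_neg h6]
      exact hPF' a h5 a' (Finset.mem_sdiff.2 ⟨ha', h6⟩) hab
    · simp only [if_neg h5, if_pos h6]
      exact (hPF' a' h6 a (Finset.mem_sdiff.2 ⟨ha, h5⟩) hab.symm).symm
    · simp only [if_neg h5, if_neg h6]
      exact h3 a (Finset.mem_sdiff.2 ⟨ha, h5⟩) a' (Finset.mem_sdiff.2 ⟨ha', h6⟩) hab

end Pool.Agent.TH493.MB
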