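import Pool.Agent.TH580.LM.Fn

set_option autoImplicit false

/-!
# The numerical inequality `S_NI` (large `p`, symmetric bodies)
-/

noncomputable section

namespace Pool.Agent.TH493.LM_NI

open Pool.Agent.TH580.LM

/-- the correction term -/
def be (m : ℕ) : ℝ := if m ≤ 2 then 0 else
  (2 / 5 - 1 / (20 * ((m : ℝ) - 1))) * (hh m - 3 / 2 + Real.log 2)

/-- the difference of the two sides -/
def FF (a b : ℕ) : ℝ := CC a b - 2 + Real.log 2 - (b : ℝ) / (a + b) * be a -
  (a : ℝ) / (a + b) * be b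

theorem hh_succ (n : ℕ) : hh (n + 1) = hh n + 1 / ((n : ℝ) + 1) := by
  unfold hh
  rw [Finset.sum_range_succ]

theorem log2_lo : (0.6931471803 : ℝ) < Real.log 2 := Real.log_two_gt_d9
theorem log2_hi : Real.log 2 < (0.6931471808 : ℝ) := Real.log_two_lt_d9

theorem hh_le (n : ℕ) (hn : 1 ≤ n) : hh n ≤ ((n : ℝ) + 1) / 2 := by
  induction n, hn using Nat.le_induction with
  | base => norm_num [hh]
  | succ k hk ih =>
    rw [hh_succ]
    have hk' : (1 : ℝ) ≤ k := by exact_mod_cast hk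
    have : 1 / ((k : ℝ) + 1) ≤ 1 / 2 := by
      apply one_div_le_one_div_of_le <;> linarith
    push_cast
    linarith

theorem log_le (y : ℝ) (hy : 1 ≤ y) : Real.log y ≤ (y - y⁻¹) / 2 := by
  have h := Real.self_le_sinh_iff.2 (Real.log_nonneg hy)
  rwa [Real.sinh_log (by linarith)] at h

theorem step (k : ℕ) (hk : 1 ≤ k) :
    1 / (2 * ((k : ℝ) * (k + 1))) ≤ 1 / (k : ℝ) - Real.log (((k : ℝ) + 1) / k) := by
  have hk' : (1 : ℝ) ≤ k := by exact_mod_cast hk
  have hk0 : (0 : ℝ) < k := by linarith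
  have h := log_le (((k : ℝ) + 1) / k) (by rw [le_div_iff₀ hk0]; linarith)
  have e : (((k : ℝ) + 1) / k - (((k : ℝ) + 1) / k)⁻¹) / 2 =
      1 / (k : ℝ) - 1 / (2 * ((k : ℝ) * (k + 1))) := by
    rw [inv_div]
    field_simp
    ring
  linarith

theorem low (a b : ℕ) : (b : ℝ) / (2 * ((a : ℝ) + 1) * (a + b + 1)) ≤
    hh (a + b) - hh a - Real.log (((a : ℝ) + b + 1) / (a + 1)) := by
  induction b with
  | zero =>
    have h : ((a : ℝ) + 1) ≠ 0 := by positivity
    simp [h]
  | succ b ih =>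
    have h := step (a + b + 1) (by omega)
    rw [← add_assoc, hh_succ]
    push_cast at *
    have e1 : Real.log (((a : ℝ) + (b + 1) + 1) / (a + 1)) =
        Real.log (((a : ℝ) + b + 1) / (a + 1)) +
          Real.log (((a : ℝ) + b + 1 + 1) / (a + b + 1)) := by
      rw [← Real.log_mul (by positivity) (by positivity)]
      congr 1
      field_simp
      ring
    have e2 : ((b : ℝ) + 1) / (2 * ((a : ℝ) + 1) * (a + (b + 1) + 1)) =
        (b : ℝ) / (2 * ((a : ℝ) + 1) * (a + b + 1)) +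
          1 / (2 * (((a : ℝ) + b + 1) * (a + b + 1 + 1))) := by
      field_simp
      ring
    rw [e1, e2]
    linarith

theorem CC_succ (a b : ℕ) : CC (a + 1) b - CC a b =
    hh (a + b) - hh a - Real.log (((a : ℝ) + b + 1) / (a + 1)) := by
  unfold CC
  have e0 : a + 1 + b = a + b + 1 := by ring
  have hc : (((a + b + 1).choose (a + 1) : ℕ) : ℝ) =
      ((a + b).choose a : ℕ) * (((a : ℝ) + b + 1) / (a + 1)) := by
    have h := Nat.add_one_mul_choose_eq (a + b) a
    have h' : ((a : ℝ) + b + 1) * ((a + b).choose a : ℕ) =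
        ((a + b + 1).choose (a + 1) : ℕ) * ((a : ℝ) + 1) := by
      have := congrArg (Nat.cast : ℕ → ℝ) h
      push_cast at this
      exact this
    field_simp
    linarith
  have hp : (0 : ℝ) < ((a + b).choose a : ℕ) := by
    exact_mod_cast Nat.choose_pos (by omega)
  rw [e0, hc, Real.log_mul hp.ne' (by positivity), hh_succ, hh_succ]
  push_cast
  field_simp
  ring

theorem CC_comm (a b : ℕ) : CC a b = CC b a := by
  unfold CC
  have e : (a + b).choose a = (b + a).choose b := by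
    rw [add_comm b a, Nat.choose_symm_add]
  rw [e, add_comm a b]
  ring

theorem FF_comm (a b : ℕ) : FF a b = FF b a := by
  unfold FF
  rw [CC_comm a b, add_comm (a : ℝ) (b : ℝ)]
  ring

theorem L_le (a : ℕ) (ha : 3 ≤ a) : hh a - 3 / 2 + Real.log 2 ≤ (a : ℝ) / 2 - 3 / 10 := by
  have := hh_le a (by omega)
  have := log2_hi
  linarith

theorem L_pos (a : ℕ) (ha : 3 ≤ a) : 0 ≤ hh a - 3 / 2 + Real.log 2 := by
  have h : (11 : ℝ) / 6 ≤ hh a := by
    induction a, ha using Nat.le_induction with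
    | base => norm_num [hh, Finset.sum_range_succ]
    | succ k hk ih =>
      rw [hh_succ]
      have : 0 < 1 / ((k : ℝ) + 1) := by positivity
      linarith
  have := log2_lo
  linarith

theorem be_succ (a : ℕ) (ha : 3 ≤ a) : be (a + 1) - be a =
    (2 / 5 - 1 / (20 * (a : ℝ))) / (a + 1) +
      (hh a - 3 / 2 + Real.log 2) / (20 * a * ((a : ℝ) - 1)) := by
  have ha' : (3 : ℝ) ≤ a := by exact_mod_cast ha
  have h1 : (0 : ℝ) < (a : ℝ) - 1 := by linarith
  have h0 : (0 : ℝ) < (a : ℝ) := by linarith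
  unfold be
  rw [if_neg (by omega), if_neg (by omega), hh_succ]
  push_cast
  have : (a : ℝ) + 1 - 1 = a := by ring
  rw [this]
  field_simp
  ring

theorem be_inc (a : ℕ) (ha : 3 ≤ a) : be (a + 1) - be a ≤ 1 / (2 * ((a : ℝ) + 1)) := by
  have ha' : (3 : ℝ) ≤ a := by exact_mod_cast ha
  have h1 : (0 : ℝ) < (a : ℝ) - 1 := by linarith
  have h0 : (0 : ℝ) < (a : ℝ) := by linarith
  rw [be_succ a ha]
  have hL := L_le a ha
  have : (hh a - 3 / 2 + Real.log 2) / (20 * a * ((a : ℝ) - 1)) ≤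
      ((a : ℝ) / 2 - 3 / 10) / (20 * a * ((a : ℝ) - 1)) := by
    apply div_le_div_of_nonneg_right hL (by positivity)
  refine le_trans (add_le_add_right this _) ?_
  rw [div_add_div _ _ (by positivity) (by positivity), div_le_div_iff₀ (by positivity)
    (by positivity)]
  have e : (2 / 5 - 1 / (20 * (a : ℝ))) = (8 * a - 1) / (20 * a) := by
    field_simp
    ring
  rw [e]
  have e2 : ((8 * (a : ℝ) - 1) / (20 * a)) * (20 * a * ((a : ℝ) - 1)) =
      (8 * (a : ℝ) - 1) * ((a : ℝ) - 1) := by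
    field_simp
  rw [e2]
  nlinarith [mul_pos h0 h1, mul_nonneg (mul_nonneg h0.le h1.le) (sub_nonneg.2 ha'),
    mul_nonneg (mul_nonneg h0.le h0.le) (sub_nonneg.2 ha'), sq_nonneg ((a : ℝ) - 3)]

theorem be_mono_succ (a : ℕ) (ha : 3 ≤ a) : be a ≤ be (a + 1) := by
  have ha' : (3 : ℝ) ≤ a := by exact_mod_cast ha
  have h1 : (0 : ℝ) < (a : ℝ) - 1 := by linarith
  have h0 : (0 : ℝ) < (a : ℝ) := by linarith
  have e := be_succ a ha
  have hL := L_pos a ha
  have h2 : 0 ≤ (hh a - 3 / 2 + Real.log 2) / (20 * a * ((a : ℝ) - 1)) := by positivity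
  have h3 : 1 / (20 * (a : ℝ)) ≤ 1 / 60 := by
    apply one_div_le_one_div_of_le <;> linarith
  have h4 : 0 ≤ (2 / 5 - 1 / (20 * (a : ℝ))) / (a + 1) := by
    apply div_nonneg <;> linarith
  linarith

theorem be_nonneg (a : ℕ) : 0 ≤ be a := by
  unfold be
  split_ifs with h
  · exact le_refl _
  · have ha : 3 ≤ a := by omega
    have ha' : (3 : ℝ) ≤ a := by exact_mod_cast ha
    have h3 : 1 / (20 * ((a : ℝ) - 1)) ≤ 1 / 40 := by
      apply one_div_le_one_div_of_le <;> linarith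
    apply mul_nonneg _ (L_pos a ha)
    linarith

theorem be_mono (b a : ℕ) (hb : b ≤ a) (ha : 3 ≤ a) : be b ≤ be a := by
  by_cases h : b ≤ 2
  · have : be b = 0 := by unfold be; rw [if_pos h]
    rw [this]
    exact be_nonneg a
  · have hb3 : 3 ≤ b := by omega
    clear h ha
    induction a, hb using Nat.le_induction with
    | base => exact le_refl _
    | succ k hk ih => exact le_trans ih (be_mono_succ k (by omega))

theorem FF_succ (a b : ℕ) (hb : 1 ≤ b) (hba : b ≤ a) (ha : 3 ≤ a) : FF a b ≤ FF (a + 1) b := by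
  have ha' : (3 : ℝ) ≤ a := by exact_mod_cast ha
  have hb' : (1 : ℝ) ≤ b := by exact_mod_cast hb
  have h1 := CC_succ a b
  have h2 := low a b
  have h3 := be_inc a ha
  have h4 := be_mono b a hba ha
  unfold FF
  push_cast
  set n : ℝ := (a : ℝ) + b with hn
  have hn0 : 0 < n := by linarith
  have e1 : (a : ℝ) + 1 + b = n + 1 := by rw [hn]; ring
  rw [e1]
  have k1 : (b : ℝ) / (n + 1) * be (a + 1) + ((a : ℝ) + 1) / (n + 1) * be b -
      ((b : ℝ) / n * be a + (a : ℝ) / n * be b) =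
      (b : ℝ) / (n + 1) * (be (a + 1) - be a) - (b : ℝ) / (n * (n + 1)) * (be a - be b) := by
    have : (a : ℝ) = n - b := by rw [hn]; ring
    rw [this]
    field_simp
    ring
  have k2 : 0 ≤ (b : ℝ) / (n * (n + 1)) * (be a - be b) := by
    apply mul_nonneg (by positivity)
    linarith
  have k3 : (b : ℝ) / (n + 1) * (be (a + 1) - be a) ≤
      (b : ℝ) / (n + 1) * (1 / (2 * ((a : ℝ) + 1))) := by
    apply mul_le_mul_of_nonneg_left h3 (by positivity)
  have k4 : (b : ℝ) / (n + 1) * (1 / (2 * ((a : ℝ) + 1))) =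
      (b : ℝ) / (2 * ((a : ℝ) + 1) * (n + 1)) := by
    field_simp
  linarith

theorem FF_ge (c b : ℕ) (hb : 1 ≤ b) (hbc : b ≤ c) (hc : 3 ≤ c) (a : ℕ) (ha : c ≤ a) :
    FF c b ≤ FF a b := by
  induction a, ha using Nat.le_induction with
  | base => exact le_refl _
  | succ k hk ih => exact le_trans ih (FF_succ k b hb (by omega) (by omega))

theorem FF_diag (b : ℕ) (hb : 1 ≤ b) : FF b b = CC b b - 2 + Real.log 2 - be b := by
  unfold FF
  have hb' : (1 : ℝ) ≤ b := by exact_mod_cast hb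
  have : (b : ℝ) / (b + b) = 1 / 2 := by field_simp; ring
  rw [this]
  ring

theorem diag_succ (b : ℕ) (hb : 3 ≤ b) : FF b b ≤ FF (b + 1) (b + 1) := by
  have hb' : (3 : ℝ) ≤ b := by exact_mod_cast hb
  have h1 : (0 : ℝ) < (b : ℝ) - 1 := by linarith
  have h0 : (0 : ℝ) < (b : ℝ) := by linarith
  rw [FF_diag b (by omega), FF_diag (b + 1) (by omega)]
  have c1 := CC_succ b b
  have c2 := CC_succ b (b + 1)
  rw [CC_comm b (b + 1)] at c2
  have l1 := low b b
  have l2 := low b (b + 1)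
  rw [← c1] at l1
  rw [← c2] at l2
  have e := be_succ b hb
  have hL := L_le b hb
  have : (hh b - 3 / 2 + Real.log 2) / (20 * b * ((b : ℝ) - 1)) ≤
      ((b : ℝ) / 2 - 3 / 10) / (20 * b * ((b : ℝ) - 1)) := by
    apply div_le_div_of_nonneg_right hL (by positivity)
  have key : (2 / 5 - 1 / (20 * (b : ℝ))) / (b + 1) +
      ((b : ℝ) / 2 - 3 / 10) / (20 * b * ((b : ℝ) - 1)) ≤
      (b : ℝ) / (2 * ((b : ℝ) + 1) * (b + b + 1)) +
      ((b : ℝ) + 1) / (2 * ((b : ℝ) + 1) * (b + (b + 1) + 1)) := by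
    have e3 : (b : ℝ) / (2 * ((b : ℝ) + 1) * (b + b + 1)) +
      ((b : ℝ) + 1) / (2 * ((b : ℝ) + 1) * (b + (b + 1) + 1)) =
      (4 * b + 1) / (4 * ((b : ℝ) + 1) * (2 * b + 1)) := by
      field_simp
      ring
    have e4 : (2 / 5 - 1 / (20 * (b : ℝ))) / (b + 1) +
      ((b : ℝ) / 2 - 3 / 10) / (20 * b * ((b : ℝ) - 1)) =
      ((8 * (b : ℝ) - 1) * (b - 1) + ((b : ℝ) / 2 - 3 / 10) * (b + 1)) /
        (20 * b * ((b : ℝ) - 1) * (b + 1)) := by
      field_simp
      ring
    rw [e3, e4, div_le_div_iff₀ (by positivity) (by positivity)]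
    have hs : 0 ≤ (b : ℝ) - 3 := by linarith
    obtain ⟨s, hs'⟩ : ∃ s : ℝ, (b : ℝ) = s + 3 := ⟨b - 3, by ring⟩
    have hs0 : 0 ≤ s := by linarith
    rw [hs']
    nlinarith [mul_nonneg hs0 hs0, mul_nonneg (mul_nonneg hs0 hs0) hs0,
      mul_nonneg (mul_nonneg hs0 hs0) (mul_nonneg hs0 hs0)]
  push_cast at l2
  linarith

theorem diag_ge (b : ℕ) (hb : 3 ≤ b) : FF 3 3 ≤ FF b b := by
  induction b, hb using Nat.le_induction with
  | base => exact le_refl _
  | succ k hk ih => exact le_trans ih (diag_succ k hk)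

theorem log3 : Real.log 3 < 8 / 5 * Real.log 2 := by
  have h : Real.log ((3 : ℝ) ^ 5) < Real.log ((2 : ℝ) ^ 8) :=
    Real.log_lt_log (by norm_num) (by norm_num)
  rw [Real.log_pow, Real.log_pow] at h
  push_cast at h
  linarith

theorem log5 : Real.log 5 < 7 / 3 * Real.log 2 := by
  have h : Real.log ((5 : ℝ) ^ 3) < Real.log ((2 : ℝ) ^ 7) :=
    Real.log_lt_log (by norm_num) (by norm_num)
  rw [Real.log_pow, Real.log_pow] at h
  push_cast at h
  linarith

theorem be3 : be 3 = 3 / 8 * (1 / 3 + Real.log 2) := by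
  unfold be
  rw [if_neg (by norm_num)]
  norm_num [hh, Finset.sum_range_succ]

theorem be1 : be 1 = 0 := by unfold be; rw [if_pos (by norm_num)]
theorem be2 : be 2 = 0 := by unfold be; rw [if_pos (by norm_num)]

theorem F33 : 0 < FF 3 3 := by
  rw [FF_diag 3 (by norm_num), be3]
  have h20 : Real.log (((3 + 3).choose 3 : ℕ) : ℝ) = 2 * Real.log 2 + Real.log 5 := by
    have : (((3 + 3).choose 3 : ℕ) : ℝ) = 2 ^ 2 * 5 := by norm_num [Nat.choose]
    rw [this, Real.log_mul (by norm_num) (by norm_num), Real.log_pow]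
    push_cast
    ring
  unfold CC
  rw [h20]
  have := log5
  have := log2_lo
  have := log2_hi
  norm_num [hh, Finset.sum_range_succ]
  linarith

theorem F31 : 0 < FF 3 1 := by
  unfold FF CC
  rw [be3, be1]
  have h4 : Real.log (((3 + 1).choose 3 : ℕ) : ℝ) = 2 * Real.log 2 := by
    have : (((3 + 1).choose 3 : ℕ) : ℝ) = 2 ^ 2 := by norm_num [Nat.choose]
    rw [this, Real.log_pow]
    push_cast
    ring
  rw [h4]
  have := log2_lo
  have := log2_hi
  norm_num [hh, Finset.sum_range_succ]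
  linarith

theorem F32 : 0 < FF 3 2 := by
  unfold FF CC
  rw [be3, be2]
  have h4 : Real.log (((3 + 2).choose 3 : ℕ) : ℝ) = Real.log 2 + Real.log 5 := by
    have : (((3 + 2).choose 3 : ℕ) : ℝ) = 2 * 5 := by norm_num [Nat.choose]
    rw [this, Real.log_mul (by norm_num) (by norm_num)]
  rw [h4]
  have := log5
  have := log2_lo
  have := log2_hi
  norm_num [hh, Finset.sum_range_succ]
  linarith

theorem F21 : 0 < FF 2 1 := by
  unfold FF CC
  rw [be2, be1]
  have h4 : Real.log (((2 + 1).choose 2 : ℕ) : ℝ) = Real.log 3 := by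
    have : (((2 + 1).choose 2 : ℕ) : ℝ) = 3 := by norm_num [Nat.choose]
    rw [this]
  rw [h4]
  have := log3
  have := log2_lo
  have := log2_hi
  norm_num [hh, Finset.sum_range_succ]
  linarith

theorem F22 : 0 < FF 2 2 := by
  unfold FF CC
  rw [be2]
  have h4 : Real.log (((2 + 2).choose 2 : ℕ) : ℝ) = Real.log 2 + Real.log 3 := by
    have : (((2 + 2).choose 2 : ℕ) : ℝ) = 2 * 3 := by norm_num [Nat.choose]
    rw [this, Real.log_mul (by norm_num) (by norm_num)]
  rw [h4]
  have := log3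
  have := log2_lo
  have := log2_hi
  norm_num [hh, Finset.sum_range_succ]
  linarith

theorem FF_pos_aux (a b : ℕ) (hb : 1 ≤ b) (hba : b ≤ a) (h : ¬ (a = 1 ∧ b = 1)) :
    0 < FF a b := by
  by_cases ha : 3 ≤ a
  · by_cases hb3 : 3 ≤ b
    · exact lt_of_lt_of_le F33 (le_trans (diag_ge b hb3) (FF_ge b b hb le_rfl hb3 a hba))
    · have hb12 : b = 1 ∨ b = 2 := by omega
      rcases hb12 with rfl | rfl
      · exact lt_of_lt_of_le F31 (FF_ge 3 1 le_rfl (by norm_num) le_rfl a ha)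
      · exact lt_of_lt_of_le F32 (FF_ge 3 2 (by norm_num) (by norm_num) le_rfl a ha)
  · have ha12 : a = 1 ∨ a = 2 := by omega
    rcases ha12 with rfl | rfl
    · exact absurd ⟨rfl, by omega⟩ h
    · have hb12 : b = 1 ∨ b = 2 := by omega
      rcases hb12 with rfl | rfl
      · exact F21
      · exact F22

theorem FF_pos (a b : ℕ) (ha : 1 ≤ a) (hb : 1 ≤ b) (h : ¬ (a = 1 ∧ b = 1)) : 0 < FF a b := by
  rcases le_total b a with hba | hab
  · exact FF_pos_aux a b hb hba h
  · rw [FF_comm]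
    exact FF_pos_aux b a ha hab (fun h' => h ⟨h'.2, h'.1⟩)

theorem thm : S_NI := by
  intro a b ha hb h
  have := FF_pos a b ha hb h
  unfold FF be at this
  linarith

end Pool.Agent.TH493.LM_NI
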